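import Pool.Agent.TH526.DS.Class2
import Pool.Agent.Results.MP_bf61d2_nt.NonabelianTwists

/-!
# Elliptic curves over number fields: twists by characters with many zeros at the real edge point

`K` is an arbitrary number field and `E` an elliptic curve over `K`, given by an integral Weierstrass
equation `W` with discriminant `≠ 0`.  For a finite Galois extension `F/K` the `L`-series of `E` over `F` is
the product of the `L(E ⊗ χ, s)^{χ(1)}` over the irreducible representations `χ` of `Gal(F/K)`, up to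
finitely many Euler factors.  `L(E ⊗ χ, s)` is the Euler product over the primes `v` of `K` whose factor
is, for all but finitely many `v`, `det(1 - a_v q_v^{-s} χ(Frob_v⁻¹) + q_v^{1 - 2s} χ(Frob_v⁻¹)²)⁻¹`.

The definitions `IsFrobenius`, `frobTrace`, `IsEulerFactor`, `eulerProduct` and `size` are those of the
file `Pool.Agent.Results.MP_bf61d2_nt.NonabelianTwists`; `size B 0 ε` is
`log |L(E ⊗ χ, 3/2 + ε)| / log (1/ε)`.  That file has exact results for the points `3/2 + iτ`, `τ ≠ 0`; here
the subject is the point `3/2`.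
-/

set_option autoImplicit false

namespace Pool.Agent.Results.MP_0d9be2_nt.CharactersWithZeros

open Complex Filter Topology NumberField IsDedekindDomain Polynomial
open Pool.Agent.Results.MP_bf61d2_nt.NonabelianTwists (IsEulerFactor eulerProduct size)

/-- The Euler product has a meromorphic continuation to a neighbourhood of `3/2`, of order `m` at `3/2`
(`m < 0` for a pole, `m > 0` for a zero). -/
def HasOrder {K : Type} [Field K] [NumberField K] (B : HeightOneSpectrum (𝓞 K) → ℂ[X])
    (m : ℤ) : Prop :=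
  ∃ Λ : ℂ → ℂ, MeromorphicAt Λ (3 / 2) ∧
    (∀ᶠ s in 𝓝 (3 / 2 : ℂ), 3 / 2 < s.re → Λ s = eulerProduct B s) ∧
    meromorphicOrderAt Λ (3 / 2) = m

/-- For every `η > 0` and all small `ε > 0`, `|log |L(3/2 + ε)|| ≤ (A + η) log (1/ε)` (no continuation is
assumed here), and a meromorphic continuation has an order of absolute value at most `A` at `3/2`. -/
def BoundedBy {K : Type} [Field K] [NumberField K] (B : HeightOneSpectrum (𝓞 K) → ℂ[X])
    (A : ℝ) : Prop :=
  (∀ η : ℝ, 0 < η → ∀ᶠ ε : ℝ in 𝓝[>] 0, |size B 0 ε| ≤ A + η) ∧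
    ∀ m : ℤ, HasOrder B m → |(m : ℝ)| ≤ A

/-- **Twists of an elliptic curve by characters with many zeros.**  Let `E` be an elliptic curve over a
number field `K`, `χ` an irreducible representation of `G = Gal(K̄/K)` of degree `n` that is trivial on
the open normal subgroup `U`, and `L(E ⊗ χ, s)` the Euler product with arbitrary polynomials, not zero at
`q_v^{-3/2}`, as factors at finitely many primes.
* `L(E ⊗ χ, 3/2 + ε) ≠ 0` for small `ε > 0`.
* Let `p` be the proportion of the elements of `G / U` at which the character of `χ` is not zero.  The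
  order at `3/2` is at most `2 √p` in absolute value; if the character vanishes at more than `3/4` of the
  elements, then `L(E ⊗ χ, s)` has neither a zero nor a pole at `3/2`.
* If `χ` is not of degree one, then the order at `3/2` is `-1`, `0` or `1`.
* If the character vanishes outside a subgroup `H` (for example if `χ` is induced from a normal subgroup
  `H`), then the order is at most `2 / √[G : H]`; it is `0` if `[G : H] ≥ 5`.
* If the image of `χ` is nilpotent of class at most two (the commutators act as scalars), then the order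
  is at most `2 / n`; it is `0` if `n ≥ 3`.

The bounds hold for `log |L(E ⊗ χ, 3/2 + ε)| / log (1/ε)`, too, without a continuation. -/
theorem result (K : Type) [Field K] [NumberField K] (W : WeierstrassCurve (𝓞 K)) (hΔ : W.Δ ≠ 0)
    (U : Subgroup Gal(AlgebraicClosure K/K)) [U.Normal]
    (hU : IsOpen (U : Set Gal(AlgebraicClosure K/K))) (n : ℕ)
    (χ : Representation ℂ Gal(AlgebraicClosure K/K) (Fin n → ℂ)) (hχ : ∀ u ∈ U, χ u = 1)
    (hirr : χ.IsIrreducible)
    (B : HeightOneSpectrum (𝓞 K) → ℂ[X]) (hB : IsEulerFactor W χ B)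
    (hB0 : ∀ v, (B v).eval ((Ideal.absNorm v.asIdeal : ℂ) ^ (-(3 / 2 : ℂ))) ≠ 0) :
    (∀ᶠ ε : ℝ in 𝓝[>] 0, eulerProduct B (3 / 2 + ε) ≠ 0) ∧
    BoundedBy B (2 * Real.sqrt (Nat.card {q : Gal(AlgebraicClosure K/K) ⧸ U //
      χ.character q.out ≠ 0} / Nat.card (Gal(AlgebraicClosure K/K) ⧸ U))) ∧
    (4 * Nat.card {q : Gal(AlgebraicClosure K/K) ⧸ U // χ.character q.out ≠ 0} <
      Nat.card (Gal(AlgebraicClosure K/K) ⧸ U) → ∀ m : ℤ, HasOrder B m → m = 0) ∧
    (2 ≤ n → ∀ m : ℤ, HasOrder B m → |m| ≤ 1) ∧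
    (∀ H : Subgroup Gal(AlgebraicClosure K/K), (∀ g, g ∉ H → χ.character g = 0) →
      BoundedBy B (2 / Real.sqrt H.index) ∧
      (5 ≤ H.index → ∀ m : ℤ, HasOrder B m → m = 0)) ∧
    ((∀ g h k, χ (g * h * g⁻¹ * h⁻¹) * χ k = χ k * χ (g * h * g⁻¹ * h⁻¹)) →
      BoundedBy B (2 / n) ∧ (3 ≤ n → ∀ m : ℤ, HasOrder B m → m = 0)) := by
  classical
  have hfin : Finite (Gal(AlgebraicClosure K/K) ⧸ U) := Subgroup.quotient_finite_of_isOpen U hU
  have e0 : ((3 : ℂ) / 2 + ((0 : ℝ) : ℂ) * I) = 3 / 2 := by simp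
  obtain ⟨h1, h2, h3⟩ := MP_bf61d2_nt.NonabelianTwists.result K W hΔ U hU Unit (fun _ => n)
    (fun _ => χ) (fun _ => hχ) (fun _ => 0) (fun _ => B) (fun _ => hB)
    (fun _ v => by rw [e0]; exact hB0 v)
  set D : ℝ := W353.L1.avR U (fun q => ‖(W353.L1.chF U (fun _ : Unit => χ)
    (fun _ => hχ) ()).f q‖) with hD
  have hnorm : MP_bf61d2_nt.NonabelianTwists.meanNorm U 0
      (fun g => ∑ _k : Unit, (((1 : ℝ) : ℝ) : ℂ) * χ.character g) ≤ D := by
    have h4 := TH526.DS.meanNorm_le U χ hχ 0
    have h5 : TH526.DS.heightFactor 0 = 1 := if_pos rfl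
    rw [h5, one_mul] at h4
    exact h4
  -- the basic bound
  have hbase : BoundedBy B (2 * D) := by
    refine ⟨fun η hη => ?_, fun m hm => ?_⟩
    · have h4 := h2 0 (fun _ => 1) (fun _ _ => rfl) η hη
      refine h4.mono fun ε hε => ?_
      simp only [Finset.univ_unique, Finset.sum_singleton, one_mul] at hε
      refine hε.trans (add_le_add (mul_le_mul_of_nonneg_left ?_ zero_le_two) le_rfl)
      simpa using hnorm
    · obtain ⟨Λ, h4, h5, h6⟩ := hm
      obtain ⟨m', h7, h8, -, -⟩ := h3 (fun _ => Λ) (fun _ => by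
        rw [e0]
        exact ⟨h4, h5⟩)
      have h9 := h7 ()
      rw [e0, h6] at h9
      have h10 : m = m' () := by exact_mod_cast h9
      have h11 := h8 0 (fun _ => 1) (fun _ _ => rfl)
      simp only [Finset.univ_unique, Finset.sum_singleton, one_mul] at h11
      rw [h10]
      refine le_trans (le_trans (le_of_eq ?_) h11) (mul_le_mul_of_nonneg_left ?_ zero_le_two)
      · rfl
      · simpa using hnorm
  have hle : ∀ A : ℝ, 2 * D ≤ A → BoundedBy B A := fun A hA =>
    ⟨fun η hη => (hbase.1 η hη).mono fun ε hε => hε.trans (by linarith),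
      fun m hm => (hbase.2 m hm).trans hA⟩
  have hzero : ∀ A : ℝ, A < 1 → BoundedBy B A → ∀ m : ℤ, HasOrder B m → m = 0 := by
    intro A hA hBA m hm
    have h4 : |(m : ℝ)| < 1 := (hBA.2 m hm).trans_lt hA
    have h5 : |m| < 1 := by exact_mod_cast h4
    exact Int.abs_lt_one_iff.1 h5
  have hc : (0 : ℝ) < Nat.card (Gal(AlgebraicClosure K/K) ⧸ U) := by exact_mod_cast Nat.card_pos
  have hshare : BoundedBy B (2 * Real.sqrt (Nat.card {q : Gal(AlgebraicClosure K/K) ⧸ U //
      χ.character q.out ≠ 0} / Nat.card (Gal(AlgebraicClosure K/K) ⧸ U))) := by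
    refine hle _ (mul_le_mul_of_nonneg_left ?_ zero_le_two)
    refine TH526.DS.avR_supp U (fun _ : Unit => χ) (fun _ => hχ) (k := ()) hirr ?_
    rw [TH526.DS.share_eq, div_mul_cancel₀ _ hc.ne']
  refine ⟨?_, hshare, fun h4 => hzero _ ?_ hshare, fun hn m hm => ?_, fun H hH => ?_, fun h4 => ?_⟩
  · have h4 := h1 ()
    simp only [e0] at h4
    exact h4
  · have h5 : (4 : ℝ) * Nat.card {q : Gal(AlgebraicClosure K/K) ⧸ U // χ.character q.out ≠ 0} <
        Nat.card (Gal(AlgebraicClosure K/K) ⧸ U) := by exact_mod_cast h4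
    have h6 : Real.sqrt (Nat.card {q : Gal(AlgebraicClosure K/K) ⧸ U //
        χ.character q.out ≠ 0} / Nat.card (Gal(AlgebraicClosure K/K) ⧸ U)) < 1 / 2 := by
      rw [Real.sqrt_lt' (by norm_num), div_lt_iff₀ hc]
      linarith
    linarith
  · have h5 := hbase.2 m hm
    have h6 := TH526.DS.avR_nonlinear U χ hχ hirr hn
    have h7 : |(m : ℝ)| < 2 := by linarith
    have h8 : |m| < 2 := by exact_mod_cast h7
    omega
  · have h5 := TH526.DS.avR_vanish U (fun _ : Unit => χ) (fun _ => hχ) (k := ()) hirr H hH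
    have h6 : BoundedBy B (2 / Real.sqrt H.index) := by
      refine hle _ ?_
      rw [div_eq_mul_one_div]
      refine mul_le_mul_of_nonneg_left (h5.trans (le_of_eq ?_)) zero_le_two
      rw [Real.sqrt_div zero_le_one, Real.sqrt_one]
    refine ⟨h6, fun h7 => hzero _ ?_ h6⟩
    have h8 : (5 : ℝ) ≤ H.index := by exact_mod_cast h7
    have h9 : (2 : ℝ) < Real.sqrt H.index := Real.lt_sqrt_of_sq_lt (by linarith)
    rw [div_lt_one (by linarith)]
    exact h9
  · have hn0 : 0 < n := W353.L1.dim_pos U (fun _ : Unit => χ) (fun _ => hχ) (k := ()) hirr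
    have hn0' : (0 : ℝ) < n := by exact_mod_cast hn0
    have h5 := TH526.DS.avR_large U χ hχ hirr hn0'
      (TH526.DS.class2_norm U χ hχ hirr h4)
    have h6 : BoundedBy B (2 / n) := by
      refine hle _ ?_
      rw [div_eq_mul_inv]
      exact mul_le_mul_of_nonneg_left h5 zero_le_two
    refine ⟨h6, fun h7 => hzero _ ?_ h6⟩
    have h8 : (3 : ℝ) ≤ n := by exact_mod_cast h7
    rw [div_lt_one hn0']
    linarith

end Pool.Agent.Results.MP_0d9be2_nt.CharactersWithZeros
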