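import Pool.Agent.TH375.ED.EC2

/-!
# The edge densities of an elliptic curve

`K` is a number field and `E` an elliptic curve over `K`, given by an integral Weierstrass equation `W`
with discriminant `≠ 0` (every elliptic curve over `K` has one); `G = Gal(K̄/K)` with its Haar
probability measure `μ`.  The `L`-series `L(E/F, s)` over all number fields `F ⊇ K` and the
`L`-functions `L(E ⊗ χ, s)` of all twists by Artin representations `χ` of `K` converge for
`Re s > 3/2`; a meromorphic continuation to neighbourhoods of the points of the line `Re s = 3/2` is not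
known in general.  The theorem describes the growth of all these functions together at the points of
this line, by one bounded measurable function on `G` for every height; no continuation is assumed.
-/

set_option autoImplicit false

namespace Pool.Agent.Results.MP_0d9be2_nt.EdgeDensity

open Complex Filter Topology NumberField IsDedekindDomain Polynomial MeasureTheory

/-- `V v` is, for every `v`, an integral model of `E` with discriminant minimal at `v`. -/
def MinimalModels {F : Type} [Field F] [NumberField F] (E : WeierstrassCurve F)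
    (V : HeightOneSpectrum (𝓞 F) → WeierstrassCurve (𝓞 F)) : Prop :=
  ∀ v : HeightOneSpectrum (𝓞 F),
    (∃ C : WeierstrassCurve.VariableChange F, C • E = (V v).map (algebraMap (𝓞 F) F)) ∧
    ∀ W : WeierstrassCurve (𝓞 F),
      (∃ C : WeierstrassCurve.VariableChange F, C • E = W.map (algebraMap (𝓞 F) F)) →
        ∀ n : ℕ, (V v).Δ ∈ v.asIdeal ^ n → W.Δ ∈ v.asIdeal ^ n

open Classical in
/-- The Euler product `L(E/F, s)` of the problem, computed from the reductions of the models `V v`. -/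
noncomputable def LSeries {F : Type} [Field F] [NumberField F]
    (V : HeightOneSpectrum (𝓞 F) → WeierstrassCurve (𝓞 F)) (s : ℂ) : ℂ :=
  ∏' v : HeightOneSpectrum (𝓞 F),
    (1 - ((((Ideal.absNorm v.asIdeal : ℕ) : ℤ) -
          ((Nat.card {p : (𝓞 F ⧸ v.asIdeal) × (𝓞 F ⧸ v.asIdeal) //
            p.2 ^ 2 + Ideal.Quotient.mk v.asIdeal (V v).a₁ * p.1 * p.2
              + Ideal.Quotient.mk v.asIdeal (V v).a₃ * p.2
            = p.1 ^ 3 + Ideal.Quotient.mk v.asIdeal (V v).a₂ * p.1 ^ 2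
              + Ideal.Quotient.mk v.asIdeal (V v).a₄ * p.1
              + Ideal.Quotient.mk v.asIdeal (V v).a₆} : ℕ) : ℤ) : ℤ) : ℂ)
          * ((Ideal.absNorm v.asIdeal : ℕ) : ℂ) ^ (-s)
      + (if (V v).Δ ∈ v.asIdeal then (0 : ℂ) else 1)
          * ((Ideal.absNorm v.asIdeal : ℕ) : ℂ) ^ (1 - 2 * s))⁻¹

/-- The number of solutions of the affine Weierstrass equation of `V` with coordinates in `R`. -/
noncomputable def affineCount {R : Type} [CommRing R] (V : WeierstrassCurve R) : ℕ :=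
  Nat.card {P : R × R // P.2 ^ 2 + V.a₁ * P.1 * P.2 + V.a₃ * P.2 =
    P.1 ^ 3 + V.a₂ * P.1 ^ 2 + V.a₄ * P.1 + V.a₆}

section
variable {K : Type} [Field K] [NumberField K]

/-- `a_v = q_v + 1 - #E(k_v)`, `k_v` the residue field of `v` and `q_v` its number of elements; there is
one point at infinity. -/
noncomputable def frobTrace (W : WeierstrassCurve (𝓞 K)) (v : HeightOneSpectrum (𝓞 K)) : ℤ :=
  (Ideal.absNorm v.asIdeal : ℤ) + 1 - ((affineCount (W.map (Ideal.Quotient.mk v.asIdeal)) : ℤ) + 1)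

/-- `σ` is a Frobenius element at the prime `v` of `K`: there is a maximal ideal `Q` above `v` of the
ring of all algebraic integers with `σ x ≡ x ^ q_v` modulo `Q` for all `x`. -/
def IsFrobenius (v : HeightOneSpectrum (𝓞 K)) (σ : Gal(AlgebraicClosure K/K)) : Prop :=
  ∃ Q : Ideal (𝓞 (AlgebraicClosure K)), Q.IsMaximal ∧
    Q.comap (algebraMap (𝓞 K) (𝓞 (AlgebraicClosure K))) = v.asIdeal ∧
    ∀ x : 𝓞 (AlgebraicClosure K), σ • x - x ^ Ideal.absNorm v.asIdeal ∈ Q

/-- `χ` is an Artin representation of `K`: it is trivial on an open subgroup of `Gal(K̄/K)`. -/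
def IsArtin {n : ℕ} (χ : Representation ℂ Gal(AlgebraicClosure K/K) (Fin n → ℂ)) : Prop :=
  ∃ U : Subgroup Gal(AlgebraicClosure K/K), IsOpen (U : Set Gal(AlgebraicClosure K/K)) ∧
    ∀ u ∈ U, χ u = 1

/-- The polynomials `B v` are the Euler factors of `L(E ⊗ χ, s)` at all but finitely many primes `v`:
`B_v(z) = det(1 - a_v z χ(Frob_v⁻¹) + q_v z² χ(Frob_v⁻¹)²)`.  At the other primes `B v` is an arbitrary
polynomial.  No factor `1 / B_v(q_v^{-s})` has a pole at `s = 3/2 ± iτ`. -/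
def IsTwistSystem (W : WeierstrassCurve (𝓞 K)) {n : ℕ}
    (χ : Representation ℂ Gal(AlgebraicClosure K/K) (Fin n → ℂ)) (τ : ℝ)
    (B : HeightOneSpectrum (𝓞 K) → ℂ[X]) : Prop :=
  (∀ᶠ v in cofinite, ∀ σ : Gal(AlgebraicClosure K/K), IsFrobenius v σ → ∀ z : ℂ,
    (B v).eval z = LinearMap.det (1 - ((frobTrace W v : ℂ) * z) • χ σ⁻¹ +
      ((Ideal.absNorm v.asIdeal : ℂ) * z ^ 2) • (χ σ⁻¹) ^ 2)) ∧
  ∀ v, (B v).eval ((Ideal.absNorm v.asIdeal : ℂ) ^ (-(3 / 2 + τ * I : ℂ))) ≠ 0 ∧
    (B v).eval ((Ideal.absNorm v.asIdeal : ℂ) ^ (-(3 / 2 + (-τ : ℝ) * I : ℂ))) ≠ 0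

/-- The Euler product `∏_v B_v(q_v^{-s})⁻¹`. -/
noncomputable def eulerProduct (B : HeightOneSpectrum (𝓞 K) → ℂ[X]) (s : ℂ) : ℂ :=
  ∏' v : HeightOneSpectrum (𝓞 K), ((B v).eval ((Ideal.absNorm v.asIdeal : ℂ) ^ (-s)))⁻¹

/-- `log |L(3/2 + iτ + ε)| / log(1/ε)`; for a function with a meromorphic continuation of order `m` at
`3/2 + iτ` it tends to `-m` as `ε → 0+`. -/
noncomputable def size (L : ℂ → ℂ) (τ ε : ℝ) : ℝ :=
  Real.log ‖L (3 / 2 + τ * I + ε)‖ / Real.log (1 / ε)

/-- `L` has a meromorphic continuation from the half-plane `Re s > 3/2` to a neighbourhood of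
`3/2 + iτ`, of order `m` at this point (`m < 0` for a pole, `m > 0` for a zero). -/
def HasOrder (L : ℂ → ℂ) (τ : ℝ) (m : ℤ) : Prop :=
  ∃ Λ : ℂ → ℂ, MeromorphicAt Λ (3 / 2 + τ * I) ∧
    (∀ᶠ s in 𝓝 ((3 / 2 : ℂ) + τ * I), (3 / 2 : ℝ) < s.re → Λ s = L s) ∧
    meromorphicOrderAt Λ (3 / 2 + τ * I) = m

/-- The mean value of `θ` over the absolute Galois group `Gal(K̄/F)` of the field `F`. -/
noncomputable def meanOver [MeasurableSpace Gal(AlgebraicClosure K/K)]
    (μ : Measure Gal(AlgebraicClosure K/K)) (θ : Gal(AlgebraicClosure K/K) → ℝ)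
    (F : IntermediateField K (AlgebraicClosure K)) : ℝ :=
  ⨍ g in (F.fixingSubgroup : Set Gal(AlgebraicClosure K/K)), θ g ∂μ

/-- `θ` is the density of the edge of `E` at the height `τ` along the sequence `e`.
* For all number fields `F`, `K ⊆ F ⊆ K̄`, of arbitrary degree, `log |L(E/F, 3/2 + iτ + ε)| / log(1/ε)`
tends along the sequence to the mean value of `θ` over `Gal(K̄/F)`; if `L(E/F, s)` has a meromorphic
continuation of order `m` at `3/2 + iτ`, then the mean value is `-m`.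
* For all Artin representations `χ` of `K`, with the mean value of the quotients for `L(E ⊗ χ, s)` at
the two heights `τ` and `-τ` the limit is `∫ θ Re χ`; if there are continuations, with the orders `m` and
`m'` at `3/2 ± iτ`, then the integral is `-(m + m') / 2`. -/
def IsEdgeDensity [MeasurableSpace Gal(AlgebraicClosure K/K)]
    (μ : Measure Gal(AlgebraicClosure K/K)) (W : WeierstrassCurve (𝓞 K)) (τ : ℝ) (e : ℕ → ℝ)
    (θ : Gal(AlgebraicClosure K/K) → ℝ) : Prop :=
  (∀ (F : IntermediateField K (AlgebraicClosure K)) [NumberField F]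
    (V : HeightOneSpectrum (𝓞 F) → WeierstrassCurve (𝓞 F)),
    MinimalModels ((W.map (algebraMap (𝓞 K) K)).map (algebraMap K F)) V →
    Tendsto (fun j => size (LSeries V) τ (e j)) atTop (𝓝 (meanOver μ θ F)) ∧
    ∀ m : ℤ, HasOrder (LSeries V) τ m → meanOver μ θ F = -m) ∧
  (∀ (n : ℕ) (χ : Representation ℂ Gal(AlgebraicClosure K/K) (Fin n → ℂ)), IsArtin χ →
    ∀ B : HeightOneSpectrum (𝓞 K) → ℂ[X], IsTwistSystem W χ τ B →
    Tendsto (fun j => (size (eulerProduct B) τ (e j) + size (eulerProduct B) (-τ) (e j)) / 2)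
      atTop (𝓝 (∫ g, θ g * (χ.character g).re ∂μ)) ∧
    ∀ m m' : ℤ, HasOrder (eulerProduct B) τ m → HasOrder (eulerProduct B) (-τ) m' →
      ∫ g, θ g * (χ.character g).re ∂μ = -((m + m') / 2 : ℝ))

open Classical in
/-- **The edge densities.**  Let `E` be an elliptic curve over the number field `K` and `τ_0, τ_1, …`
distinct non-negative real numbers.  Every sequence `e_j → 0+` has a subsequence with densities
`θ_k : Gal(K̄/K) → ℝ` at all heights `t = ± τ_k`: measurable functions with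
`θ_k(h g h⁻¹) = θ_k(g) = θ_k(g⁻¹)`, whose mean values over `Gal(K̄/F)` are the limits of
`log |L(E/F, 3/2 + it + ε)| / log(1/ε)` for all number fields `F ⊇ K`, and whose integrals `∫ θ_k Re χ`
are the limits for the twists by all Artin representations `χ` of `K`.  The densities satisfy
`|θ_k| ≤ 2`, even `|θ_k| ≤ 4/π` if `τ_k ≠ 0`, and `∑_k w_k ∫ θ_k² ≤ 4` with `w_k = 2`, and `w_k = 1` if
`τ_k = 0`.  For all `c` and `η > 0` there is one finite Galois extension `M` of `K` such that, for all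
heights, the limits over `F` and over `F ∩ M` differ by less than `η` for all number fields `F ⊇ K` of
degree `≤ c`. -/
theorem result (K : Type) [Field K] [NumberField K] (W : WeierstrassCurve (𝓞 K)) (hΔ : W.Δ ≠ 0)
    [MeasurableSpace Gal(AlgebraicClosure K/K)] [BorelSpace Gal(AlgebraicClosure K/K)]
    (μ : Measure Gal(AlgebraicClosure K/K)) [μ.IsHaarMeasure] [IsProbabilityMeasure μ]
    (τ : ℕ → ℝ) (hτ0 : ∀ k, 0 ≤ τ k) (hτ : Function.Injective τ)
    (e : ℕ → ℝ) (he : Tendsto e atTop (𝓝[>] 0)) :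
    ∃ φ : ℕ → ℕ, StrictMono φ ∧ ∃ θ : ℕ → Gal(AlgebraicClosure K/K) → ℝ,
      (∀ k, Measurable (θ k) ∧ (∀ g, |θ k g| ≤ if τ k = 0 then 2 else 4 / Real.pi) ∧
        (∀ g h, θ k (h * g * h⁻¹) = θ k g) ∧ (∀ g, θ k g⁻¹ = θ k g) ∧
        ∀ t : ℝ, |t| = τ k → IsEdgeDensity μ W t (fun j => e (φ j)) (θ k)) ∧
      (∀ S : Finset ℕ, ∑ k ∈ S, (if τ k = 0 then 1 else 2) * ∫ g, θ k g ^ 2 ∂μ ≤ 4) ∧
      ∀ (c : ℕ) (η : ℝ), 0 < η → ∃ M : IntermediateField K (AlgebraicClosure K),
        FiniteDimensional K M ∧ IsGalois K M ∧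
        ∀ (k : ℕ) (F : IntermediateField K (AlgebraicClosure K)) [NumberField F],
          Module.finrank K F ≤ c → |meanOver μ (θ k) F - meanOver μ (θ k) (F ⊓ M)| < η := by
  obtain ⟨φ, hφ, θ, h1, h5, h6, h7⟩ :=
    Pool.Agent.TH375.ED.ec_densities μ W hΔ hτ0 hτ he
  have hz : Tendsto (fun j => e (φ j)) atTop (𝓝[>] 0) := he.comp hφ.tendsto_atTop
  choose σ hσ using Pool.Agent.W540.BE.exists_isFrob (F := K)
  have hlim : ∀ (L : ℂ → ℂ) (t : ℝ) (m : ℤ), (∀ᶠ ε : ℝ in 𝓝[>] 0, L (3 / 2 + t * I + ε) ≠ 0) →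
      HasOrder L t m → Tendsto (fun j => size L t (e (φ j))) atTop (𝓝 (-(m : ℝ))) := by
    rintro L t m hne ⟨Λ, hm1, hm2, hm3⟩
    obtain ⟨m', h3', h4'⟩ := Pool.Agent.H126T.order_limit hm1
      (fun ε : ℝ => L (3 / 2 + t * I + ε)) hne (by
        filter_upwards [(Pool.Agent.H341R2.path_tendsto' (3 / 2 + t * I : ℂ)).eventually hm2,
          self_mem_nhdsWithin] with ε h1 h2
        have hε : (0 : ℝ) < ε := h2
        exact h1 (by simp; linarith))
    rw [hm3] at h3'
    have h5' : m = m' := by exact_mod_cast h3'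
    subst h5'
    exact h4'.comp hz
  refine ⟨φ, hφ, θ, fun k => ⟨(h1 k).1, fun g => ?_, (h1 k).2.2.1, (h1 k).2.2.2, fun t ht =>
    ⟨fun F _ V hV => ?_, fun n χ hχ B hB => ?_⟩⟩, fun S => ?_, h7⟩
  · refine ((h1 k).2.1 g).trans (le_of_eq ?_)
    unfold Pool.Agent.TH375.ED.cst
    split_ifs <;> ring
  · have h8 := (h5 k t ht).1 F V hV
    refine ⟨h8, fun m hm => ?_⟩
    exact tendsto_nhds_unique h8 (hlim (LSeries V) t m
      (Pool.Agent.TH375.ES.sizeF W hΔ V hV t σ hσ).1 hm)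
  · obtain ⟨hB1, hB2⟩ := hB
    have hL : ∀ s : ℂ, 3 / 2 < s.re → eulerProduct B s =
      ∏' v, ((B v).eval (((Pool.Agent.W540.BE.nm K v : ℕ) : ℂ) ^ (-s)))⁻¹ := fun s _ => rfl
    have h8 := (h5 k t ht).2 n χ hχ B hB1 (fun v => (hB2 v).1) (fun v => (hB2 v).2)
      (eulerProduct B) hL
    refine ⟨h8, fun m m' hm hm' => ?_⟩
    have h9 := hlim (eulerProduct B) t m
      (Pool.Agent.TH375.ES.sizeA W hΔ χ hχ t B hB1 (fun v => (hB2 v).1) (eulerProduct B) hL
        σ hσ).1 hm
    have h10 := hlim (eulerProduct B) (-t) m'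
      (Pool.Agent.TH375.ES.sizeA W hΔ χ hχ (-t) B hB1 (fun v => (hB2 v).2) (eulerProduct B) hL
        σ hσ).1 hm'
    rw [tendsto_nhds_unique h8 ((h9.add h10).div_const 2)]
    ring
  · have h8 := h6 S
    have e4 : (2 : ℝ) ^ 2 = 4 := by norm_num
    rw [e4] at h8
    refine le_trans (le_of_eq ?_) h8
    refine Finset.sum_congr rfl fun k _ => ?_
    unfold Pool.Agent.TH375.ED.wt
    split_ifs <;> rfl

end

end Pool.Agent.Results.MP_0d9be2_nt.EdgeDensity
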