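import Pool.Agent.TH339.MP.P10

/-!
# The L-series of an elliptic curve over a number field is locally in a Hardy space

`E` is an elliptic curve over a number field `K` of degree `n`.  The Euler product `L(E, s)` converges
for `Re s > 3/2`, and a meromorphic continuation to the edge `Re s = 3/2` is not known in general.  The
theorem says how large and how small `L(E, s)` can be, on average over unit intervals, up to the edge:
the `L`-series and its inverse are locally in the Hardy spaces `H^p` of the half-plane `Re s > 3/2` for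
all `p < 1/(2n)`, with absolute bounds, the same for all elliptic curves and all number fields of
degree `n`.
-/

set_option autoImplicit false

namespace Pool.Agent.Results.MP_0d9be2_nt.LocalHardySpaces

open NumberField IsDedekindDomain MeasureTheory

/-- `W v` is, for every finite place `v`, an integral model of `E` with discriminant minimal at
`v`. -/
def MinimalModels {K : Type} [Field K] [NumberField K] (E : WeierstrassCurve K)
    (W : HeightOneSpectrum (𝓞 K) → WeierstrassCurve (𝓞 K)) : Prop :=
  ∀ v : HeightOneSpectrum (𝓞 K),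
    (∃ C : WeierstrassCurve.VariableChange K, C • (W v).map (algebraMap (𝓞 K) K) = E) ∧
    ∀ W' : WeierstrassCurve (𝓞 K),
      (∃ C : WeierstrassCurve.VariableChange K, C • W'.map (algebraMap (𝓞 K) K) = E) →
      ∀ n : ℕ, (W v).Δ ∈ v.asIdeal ^ n → W'.Δ ∈ v.asIdeal ^ n

open Classical in
/-- The Euler factor at `v`, `(1 - a_v Nv^{-s} + Nv^{1-2s})⁻¹` if the reduction at `v` is good and
`(1 - a_v Nv^{-s})⁻¹` if it is bad, where `a_v` is `Nv` minus the number of affine points of the
reduction of `W v`. -/
noncomputable def localFactor {K : Type} [Field K] [NumberField K]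
    (W : HeightOneSpectrum (𝓞 K) → WeierstrassCurve (𝓞 K)) (v : HeightOneSpectrum (𝓞 K))
    (s : ℂ) : ℂ :=
  (1 - ((Ideal.absNorm v.asIdeal : ℂ)
        - (Nat.card {xy : (𝓞 K ⧸ v.asIdeal) × (𝓞 K ⧸ v.asIdeal) //
            ((W v).map (Ideal.Quotient.mk v.asIdeal)).toAffine.Equation xy.1 xy.2} : ℂ))
        * (Ideal.absNorm v.asIdeal : ℂ) ^ (-s)
    + (if (W v).Δ ∈ v.asIdeal then 0 else (Ideal.absNorm v.asIdeal : ℂ))
        * (Ideal.absNorm v.asIdeal : ℂ) ^ (-2 * s))⁻¹

/-- The `L`-series, as the Euler product over all finite places. -/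
noncomputable def LSeries {K : Type} [Field K] [NumberField K]
    (W : HeightOneSpectrum (𝓞 K) → WeierstrassCurve (𝓞 K)) (s : ℂ) : ℂ :=
  ∏' v : HeightOneSpectrum (𝓞 K), localFactor W v s

/-- **Local Hardy spaces.**  Let `E` be an elliptic curve over a number field `K` of degree `n`.  For
all `σ > 3/2`, all real `t` and all real `r`, positive or negative, with `|r| < 1/(2n)`,
`∫_t^{t+1} |L(E, σ + iu)|^r du ≤ 864 / (1 - 2n|r|)`. -/
theorem result (K : Type) [Field K] [NumberField K] (E : WeierstrassCurve K) [E.IsElliptic]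
    (W : HeightOneSpectrum (𝓞 K) → WeierstrassCurve (𝓞 K)) (_ : MinimalModels E W)
    (σ t r : ℝ) (hσ : 3 / 2 < σ) (hr : 2 * Module.finrank ℚ K * |r| < 1) :
    ∫⁻ u in Set.Icc t (t + 1), ENNReal.ofReal (‖LSeries W ((σ : ℂ) + u * Complex.I)‖ ^ r) ≤
      ENNReal.ofReal (864 / (1 - 2 * Module.finrank ℚ K * |r|)) := by
  have hlf : ∀ v s, localFactor W v s = Pool.Agent.TH339.MP.elf W v s := by
    intro v s
    have h1 : (Nat.card {xy : (𝓞 K ⧸ v.asIdeal) × (𝓞 K ⧸ v.asIdeal) //
            ((W v).map (Ideal.Quotient.mk v.asIdeal)).toAffine.Equation xy.1 xy.2}) =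
        Pool.Agent.TH339.MP.affc ((W v).map (Ideal.Quotient.mk v.asIdeal)) := by
      unfold Pool.Agent.TH339.MP.affc
      refine Nat.card_congr (Equiv.subtypeEquivRight fun q => ?_)
      exact WeierstrassCurve.Affine.equation_iff ..
    unfold localFactor Pool.Agent.TH339.MP.elf Pool.Agent.TH339.MP.lfac Pool.Agent.TH339.MP.av
      Pool.Agent.TH339.MP.nm
    rw [h1]
    push_cast
    rfl
  have hL : ∀ s, LSeries W s = ∏' v, Pool.Agent.TH339.MP.elf W v s :=
    fun s => tprod_congr fun v => hlf v s
  simp_rw [hL]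
  exact Pool.Agent.TH339.MP.ec_hardy W hσ t hr

end Pool.Agent.Results.MP_0d9be2_nt.LocalHardySpaces
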