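import Pool.Agent.TH820.LG.OD6

/-!
# Elliptic curves over Galois extensions of odd degree

`K` is an arbitrary number field and `E` an elliptic curve over `K`, given by an integral Weierstrass
equation `W` with discriminant `≠ 0`; nothing is assumed about the modularity of `E`.  `F/K` is a Galois
extension of odd degree, and `χ` runs through the irreducible representations of `Gal(F/K)`.  The functions
`L(E/F', s)`, for the fields `F'` between `K` and `F`, are products of the functions `L(E ⊗ χ, s)`, up to
finitely many Euler factors.  The theorem determines how zeros and poles at the real point `3/2` of the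
edge of the half plane of absolute convergence can be distributed among all these functions, if they
can be continued to a neighbourhood of this one point.

The integers `m_χ = ord_{s=3/2} L(E ⊗ χ, s)` form a real virtual character of `Gal(F/K)` with values
between `-2` and `2` (`Pool.Agent.Results.MP_bf61d2_nt.NonabelianTwists`).  The new part is the
classification of these virtual characters for all groups of odd order: they are
`0`, `± 1`, `± 2`, `± (μ + μ⁻¹)` and `± (1 - μ - μ⁻¹)`, `μ³ = 1`, with one-dimensional `μ`.
The definitions are in `Pool.Agent.TH820.LG.ODDefs` and `Pool.Agent.TH820.LG.ECDefs`.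
-/

set_option autoImplicit false

namespace Pool.Agent.Results.MP_0d9be2_nt.OddExtensions

open NumberField

/-- **Elliptic curves over Galois extensions of odd degree.**  Let `E` be an elliptic curve over a number
field `K` and `F/K` a Galois extension of odd degree.  Suppose that `L(E ⊗ χ, s)` has a meromorphic
continuation to a neighbourhood of the one point `3/2` for all irreducible representations `χ` of
`Gal(F/K)`.  Then there are a homomorphism `μ : Gal(F/K) → ℂˣ`, with the cyclic extension `C` of `K` cut out
by it, and integers `a`, `b`, where `a = b` and `|a| ≤ 2`, or `a = 0` and `b = ± 2`, or `a = ± 1`, `b = -a` and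
`μ³ = 1`, such that:
* `L(E ⊗ χ, s)` has neither a zero nor a pole at `3/2`, except possibly for the one-dimensional
  representations `χ = 1, μ, μ⁻¹`.
* Let `F'` be any field with `K ⊆ F' ⊆ F`, and `k = b` if `C ⊆ F'`, `k = a` otherwise.  Then
  `log |L(E/F', 3/2 + ε)| / log(1/ε)` tends to `-k` as `ε → 0+`, and `k` is the order at `3/2` of every
  meromorphic continuation of `L(E/F', s)` to a neighbourhood of `3/2`. -/
theorem result (K : Type) [Field K] [NumberField K] (W : WeierstrassCurve (𝓞 K)) (hΔ : W.Δ ≠ 0) :
    Pool.Agent.TH820.LG.EC.OddExtensions W :=
  Pool.Agent.TH820.LG.EC.oddExtensions W hΔ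

end Pool.Agent.Results.MP_0d9be2_nt.OddExtensions
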